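import Pool.Agent.H72.Tri.ML2

/-!
# Spectral bounds for the light part: assembly
-/

set_option autoImplicit false

open MeasureTheory Set Complex Metric Filter Topology
open scoped Real ENNReal NNReal FourierTransform ComplexConjugate

namespace Pool.Agent.H24.Tri

theorem ML_fourier_sum {ι : Type*} (B : Finset ι) (F : ι → SchwartzMap ℂ ℂ) (ξ : ℂ) :
    𝓕 (fun x => ∑ m ∈ B, F m x) ξ = ∑ m ∈ B, (𝓕 (F m) : SchwartzMap ℂ ℂ) ξ := by
  have e1 : (fun x => ∑ m ∈ B, F m x) = ((∑ m ∈ B, F m : SchwartzMap ℂ ℂ) : ℂ → ℂ) := by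
    funext x
    rw [sum_apply]
  have e2 : (𝓕 (∑ m ∈ B, F m) : SchwartzMap ℂ ℂ) = ∑ m ∈ B, 𝓕 (F m) :=
    map_sum (FourierTransform.fourierCLM ℂ (SchwartzMap ℂ ℂ)) F B
  rw [e1, ← SchwartzMap.fourier_coe, e2, sum_apply]

theorem ML_sq_int (F : SchwartzMap ℂ ℂ) : Integrable fun ξ => ‖F ξ‖ ^ 2 :=
  (F.memLp 2 volume).integrable_norm_pow (by norm_num)

theorem ML_spec (C : ℝ)
    (hC : ∀ s : ℝ, 0 < s → ∀ (m : ℤ × ℤ) (b : ℂ → ℂ), Nice b →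
      (∀ ξ, ML_tt (ξ / (s : ℂ) - gi m) * b ξ = b ξ) → ∀ B : ℝ, (∀ x, ‖𝓕⁻ b x‖ ≤ B) →
      ∀ w : ℂ → ℝ, ContDiff ℝ ((⊤ : ℕ∞) : WithTop ℕ∞) w → HasCompactSupport w →
      ∃ D : SchwartzMap ℂ ℂ,
        (∀ ξ, 𝓕 (fun x => (w x : ℂ) * 𝓕⁻ b x) ξ =
          ML_tt (ξ / (s : ℂ) - gi m) * 𝓕 (fun x => (w x : ℂ) * 𝓕⁻ b x) ξ - D ξ) ∧
        (∫ ξ, ‖D ξ‖ ^ 2) ≤ (C * B / s) ^ 2 * ∫ x, ‖fderiv ℝ w x‖ ^ 2)
    (s : ℝ) (hs : 0 < s) (B : Finset (ℤ × ℤ)) (b : ℤ × ℤ → ℂ → ℂ) (hb : ∀ m, Nice (b m))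
    (hbt : ∀ m ξ, ML_tt (ξ / (s : ℂ) - gi m) * b m ξ = b m ξ) (Bp : ℝ)
    (hBp : ∀ m x, ‖𝓕⁻ (b m) x‖ ≤ Bp) (w : ℤ × ℤ → ℂ → ℝ)
    (hw : ∀ m, ContDiff ℝ ((⊤ : ℕ∞) : WithTop ℕ∞) (w m)) (hwc : ∀ m, HasCompactSupport (w m))
    (G : ℝ) (hG : ∀ m, ∫ x, ‖fderiv ℝ (w m) x‖ ^ 2 ≤ G) (S : Set ℂ) (hS : MeasurableSet S)
    (A : Finset (ℤ × ℤ))
    (hA : ∀ ξ ∈ S, ∀ m ∈ B, m ∉ A → ML_tt (ξ / (s : ℂ) - gi m) = 0) :
    ∫ ξ in S, ‖𝓕 (fun x => ∑ m ∈ B, (w m x : ℂ) * 𝓕⁻ (b m) x) ξ‖ ^ 2 ≤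
      162 * (∑ m ∈ A, ∫ x, w m x ^ 2 * ‖𝓕⁻ (b m) x‖ ^ 2) +
        2 * (B.card : ℝ) ^ 2 * ((C * Bp / s) ^ 2 * G) := by
  have hF : ∀ m, Nice (fun x => (w m x : ℂ) * 𝓕⁻ (b m) x) := fun m =>
    ML_nice_mul (hw m) (hwc m) (b m) (hb m)
  choose D hD1 hD2 using fun m => hC s hs m (b m) (hb m) (hbt m) Bp (hBp m) (w m) (hw m) (hwc m)
  set F : ℤ × ℤ → SchwartzMap ℂ ℂ := fun m => tbS _ (hF m) with hFd
  have hFx : ∀ m x, F m x = (w m x : ℂ) * 𝓕⁻ (b m) x := fun m x => rfl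
  have hFf : ∀ m ξ, (𝓕 (F m) : SchwartzMap ℂ ℂ) ξ = 𝓕 (fun x => (w m x : ℂ) * 𝓕⁻ (b m) x) ξ := by
    intro m ξ
    rw [SchwartzMap.fourier_coe]
    rfl
  have e1 : ∀ ξ, 𝓕 (fun x => ∑ m ∈ B, (w m x : ℂ) * 𝓕⁻ (b m) x) ξ =
      ∑ m ∈ B, (𝓕 (F m) : SchwartzMap ℂ ℂ) ξ := fun ξ => ML_fourier_sum B F ξ
  have hpt : ∀ ξ ∈ S, ‖𝓕 (fun x => ∑ m ∈ B, (w m x : ℂ) * 𝓕⁻ (b m) x) ξ‖ ^ 2 ≤
      2 * 81 * ∑ m ∈ A, ‖(𝓕 (F m) : SchwartzMap ℂ ℂ) ξ‖ ^ 2 +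
        2 * B.card * ∑ m ∈ B, ‖D m ξ‖ ^ 2 := by
    intro ξ hξ
    rw [e1 ξ]
    apply ML_pt B A (fun m => ML_tt (ξ / (s : ℂ) - gi m)) _ (fun m => D m ξ)
    · exact fun m => ML_tt_norm _
    · intro m _
      rw [hFf]
      exact hD1 m ξ
    · exact hA ξ hξ
    · intro M _ hM
      have h3 : M.card ≤ (2 * 4 + 1) ^ 2 := by
        apply ML_card_near (ξ / (s : ℂ)) M 4
        intro m hm
        by_contra hc
        rw [not_lt] at hc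
        exact hM m hm (ML_tt_zero (by exact_mod_cast hc))
      exact_mod_cast h3
  have hi : Integrable fun ξ => 2 * 81 * ∑ m ∈ A, ‖(𝓕 (F m) : SchwartzMap ℂ ℂ) ξ‖ ^ 2 +
        2 * B.card * ∑ m ∈ B, ‖D m ξ‖ ^ 2 := by
    apply Integrable.add
    · exact (integrable_finsetSum _ fun m _ => ML_sq_int _).const_mul _
    · exact (integrable_finsetSum _ fun m _ => ML_sq_int _).const_mul _
  have hi0 : Integrable fun ξ => ‖𝓕 (fun x => ∑ m ∈ B, (w m x : ℂ) * 𝓕⁻ (b m) x) ξ‖ ^ 2 := by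
    have e3 : (fun ξ => ‖𝓕 (fun x => ∑ m ∈ B, (w m x : ℂ) * 𝓕⁻ (b m) x) ξ‖ ^ 2) =
        fun ξ => ‖(∑ m ∈ B, 𝓕 (F m) : SchwartzMap ℂ ℂ) ξ‖ ^ 2 := by
      funext ξ
      rw [e1 ξ, sum_apply]
    rw [e3]
    exact ML_sq_int _
  have hBc : (0 : ℝ) ≤ 2 * B.card := mul_nonneg zero_le_two (Nat.cast_nonneg _)
  calc ∫ ξ in S, ‖𝓕 (fun x => ∑ m ∈ B, (w m x : ℂ) * 𝓕⁻ (b m) x) ξ‖ ^ 2
      ≤ ∫ ξ in S, (2 * 81 * ∑ m ∈ A, ‖(𝓕 (F m) : SchwartzMap ℂ ℂ) ξ‖ ^ 2 +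
        2 * B.card * ∑ m ∈ B, ‖D m ξ‖ ^ 2) :=
        setIntegral_mono_on hi0.integrableOn hi.integrableOn hS hpt
    _ ≤ ∫ ξ, (2 * 81 * ∑ m ∈ A, ‖(𝓕 (F m) : SchwartzMap ℂ ℂ) ξ‖ ^ 2 +
        2 * B.card * ∑ m ∈ B, ‖D m ξ‖ ^ 2) :=
        setIntegral_le_integral hi (Eventually.of_forall fun ξ =>
          add_nonneg (mul_nonneg (by norm_num) (Finset.sum_nonneg fun m _ => sq_nonneg _))
            (mul_nonneg hBc (Finset.sum_nonneg fun m _ => sq_nonneg _)))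
    _ = 2 * 81 * (∑ m ∈ A, ∫ ξ, ‖(𝓕 (F m) : SchwartzMap ℂ ℂ) ξ‖ ^ 2) +
        2 * B.card * (∑ m ∈ B, ∫ ξ, ‖D m ξ‖ ^ 2) := by
        rw [integral_add ((integrable_finsetSum _ fun m _ => ML_sq_int _).const_mul _)
          ((integrable_finsetSum _ fun m _ => ML_sq_int _).const_mul _), integral_const_mul,
          integral_const_mul, integral_finsetSum _ (fun m _ => ML_sq_int _),
          integral_finsetSum _ (fun m _ => ML_sq_int _)]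
    _ ≤ 162 * (∑ m ∈ A, ∫ x, w m x ^ 2 * ‖𝓕⁻ (b m) x‖ ^ 2) +
        2 * (B.card : ℝ) ^ 2 * ((C * Bp / s) ^ 2 * G) := by
        apply add_le_add
        · apply le_of_eq
          congr 1
          · norm_num
          · refine Finset.sum_congr rfl fun m _ => ?_
            rw [SchwartzMap.integral_norm_sq_fourier]
            congr 1
            funext x
            rw [hFx, norm_mul, mul_pow, Complex.norm_real, Real.norm_eq_abs, sq_abs]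
        · have h4 : ∑ m ∈ B, ∫ ξ, ‖D m ξ‖ ^ 2 ≤ ∑ m ∈ B, ((C * Bp / s) ^ 2 * G) := by
            refine Finset.sum_le_sum fun m _ => (hD2 m).trans ?_
            have := hG m
            gcongr
          rw [Finset.sum_const, nsmul_eq_mul] at h4
          calc 2 * (B.card : ℝ) * ∑ m ∈ B, ∫ ξ, ‖D m ξ‖ ^ 2
              ≤ 2 * (B.card : ℝ) * (B.card * ((C * Bp / s) ^ 2 * G)) :=
                mul_le_mul_of_nonneg_left h4 hBc
            _ = _ := by ring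

/-- SL-5: spectral bounds for the light part (ML) -/
theorem ML (C₀ : ℝ) (hC₀ : 0 < C₀) : ∃ Cs : ℝ, 0 < Cs ∧ ∀ K r th : ℝ, 1 ≤ K → 0 < r →
    0 < th → th ≤ 1 → ∃ R₀ : ℝ, 1 ≤ R₀ ∧ ∀ R : ℝ, R₀ ≤ R → ∀ a : ℂ → ℂ, Adm C₀ R a → ∀ y : ℂ,
      (∫ ξ, specM r (gl C₀ K R r th a) y ξ) ≤ Cs ∧
      ∀ ξ₀ : ℂ, ∫ ξ in closedBall ξ₀ (R / K), specM r (gl C₀ K R r th a) y ξ ≤ Cs * th := by
  obtain ⟨C₁, hC₁0, hC₁⟩ := psr_lip
  obtain ⟨C₂, hC₂0, hC₂⟩ := psr_le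
  obtain ⟨Ce, hCe0, hCe⟩ := ML_err comm
  obtain ⟨Bp, hBp0, hBp⟩ := ML_pm_bound
  refine ⟨487 + 162 * 121 * (4 * π * C₂ ^ 2), by positivity, ?_⟩
  intro K r th hK hr hth hth1
  obtain ⟨R₁, hR₁, hlao⟩ := lao C₀ hC₀ K r hK hr
  have hK0 : 0 < K := by linarith
  set Gr : ℝ := (C₁ / r ^ 2 * (1 + 4 * π * C₂ ^ 2)) ^ 2 * (π * r ^ 2) with hGr
  have hGr0 : 0 ≤ Gr := by positivity
  set B := mbox (bx C₀ K) with hB
  set Q : ℝ := 2 * (B.card : ℝ) ^ 2 * ((Ce * Bp * K) ^ 2 * Gr) with hQ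
  have hQ0 : 0 ≤ Q := by positivity
  refine ⟨R₁ + Q / th, ?_, ?_⟩
  · have : 0 ≤ Q / th := by positivity
    linarith
  intro R hR a ha y
  have hQth : 0 ≤ Q / th := by positivity
  have hR1 : 1 ≤ R := by linarith
  have hR0 : 0 < R := by linarith
  have hs : 0 < R / K := by positivity
  have hlaoR := hlao R (by linarith) a ha y
  -- the error
  have herr : 2 * (B.card : ℝ) ^ 2 * ((Ce * Bp / (R / K)) ^ 2 * Gr) ≤ th := by
    have e1 : 2 * (B.card : ℝ) ^ 2 * ((Ce * Bp / (R / K)) ^ 2 * Gr) = Q / R ^ 2 := by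
      rw [hQ]
      field_simp
    rw [e1, div_le_iff₀ (by positivity)]
    have h1 : Q / th ≤ R := by linarith
    rw [div_le_iff₀ hth] at h1
    nlinarith
  have hwt := fun m => wt_facts K R r th hR0 hK hr a ha.nice m
  have hl0 : ∀ m x, 0 ≤ lwt K R r th a m x := fun m => (hwt m).2.1
  have hl1 : ∀ m x, lwt K R r th a m x ≤ 1 := by
    intro m x
    have h1 := (hwt m).1 x
    have h2 := (hwt m).2.2.1 x
    linarith
  have hls : ∀ m, ContDiff ℝ ((⊤ : ℕ∞) : WithTop ℕ∞) (lwt K R r th a m) := fun m =>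
    (hwt m).2.2.2.2.1
  have hMc : ∀ m, Continuous fun t => mass r (pm K R a m) t := fun m => (hwt m).2.2.2.2.2
  set w : ℤ × ℤ → ℂ → ℝ := fun m x => psr r (x - y) * lwt K R r th a m x with hw
  have hws : ∀ m, ContDiff ℝ ((⊤ : ℕ∞) : WithTop ℕ∞) (w m) := fun m =>
    (psr_shift_smooth r y).mul (hls m)
  have hwc : ∀ m, HasCompactSupport (w m) := fun m => (psr_shift_compact hr y).mul_right
  have hwG : ∀ m, ∫ x, ‖fderiv ℝ (w m) x‖ ^ 2 ≤ Gr := by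
    intro m
    apply ML_grad C₁ C₂ hC₁0 hC₂0 hC₁ hC₂ r hr _ (hl0 m) (hl1 m)
    intro x x'
    classical
    have hE : MeasurableSet {t | th ≤ mass r (pm K R a m) t} :=
      (isClosed_le continuous_const (hMc m)).measurableSet
    have hem : Measurable (fun t => if th ≤ mass r (pm K R a m) t then (0 : ℝ) else 1) :=
      Measurable.ite hE measurable_const measurable_const
    have he1 : ∀ t, ‖(if th ≤ mass r (pm K R a m) t then (0 : ℝ) else 1)‖ ≤ 1 := by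
      intro t
      split_ifs <;> simp
    have h3 := ML_wt_lip C₁ C₂ hC₁0 hC₂0 hC₁ hC₂ r hr _ hem he1 x x'
    unfold lwt
    convert h3 using 3
  set b : ℤ × ℤ → ℂ → ℂ := fun m => piece 1 (R / K) m a with hb
  have hbn : ∀ m, Nice (b m) := fun m => nice_piece _ _ _ _ ha.nice
  have hbt : ∀ m ξ, ML_tt (ξ / ((R / K : ℝ) : ℂ) - gi m) * b m ξ = b m ξ := fun m ξ =>
    ML_tt_piece _ _ _ _
  have hbB : ∀ m x, ‖𝓕⁻ (b m) x‖ ≤ Bp := fun m x => hBp K R hK0 hR0 a ha.nice ha.bound m x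
  have hspec : ∀ ξ, specM r (gl C₀ K R r th a) y ξ =
      ‖𝓕 (fun x => ∑ m ∈ B, (w m x : ℂ) * 𝓕⁻ (b m) x) ξ‖ ^ 2 := by
    intro ξ
    unfold specM
    have : (fun x : ℂ => (psr r (x - y) : ℂ) * gl C₀ K R r th a x) =
        fun x => ∑ m ∈ B, (w m x : ℂ) * 𝓕⁻ (b m) x := by
      funext x
      unfold gl
      rw [Finset.mul_sum]
      refine Finset.sum_congr rfl fun m _ => ?_
      rw [hw, hb]
      simp only
      unfold pm
      push_cast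
      ring
    rw [this]
  simp only [hspec]
  have hmain := ML_spec Ce hCe (R / K) hs B b hbn hbt Bp hbB w hws hwc Gr hwG
  -- one piece is light
  have hlight : ∀ m, ∫ x, w m x ^ 2 * ‖𝓕⁻ (b m) x‖ ^ 2 ≤ 4 * π * C₂ ^ 2 * th := by
    intro m
    have h1 := ML_light C₂ hC₂0 hC₂ r th hr hth (pm K R a m)
      (nice_continuous _ (nice_piece _ _ _ _ ha.nice)) (hMc m) y (lwt K R r th a m)
      (hls m).continuous (fun x => rfl) (hl0 m) (hl1 m)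
    refine le_trans (le_of_eq ?_) h1
    congr 1
    funext x
    rw [hw]
    simp only
    rw [mul_pow]
    rfl
  have hnn : ∀ m, 0 ≤ ∫ x, w m x ^ 2 * ‖𝓕⁻ (b m) x‖ ^ 2 := fun m =>
    integral_nonneg fun x => by positivity
  constructor
  · have h1 := hmain univ MeasurableSet.univ B (fun ξ _ m hm hm2 => absurd hm hm2)
    rw [setIntegral_univ] at h1
    have h2 : ∑ m ∈ B, ∫ x, w m x ^ 2 * ‖𝓕⁻ (b m) x‖ ^ 2 ≤ 3 := by
      refine le_trans (Finset.sum_le_sum fun m _ => ?_) hlaoR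
      unfold mass
      apply integral_mono_of_nonneg (Eventually.of_forall fun x => by
        simp only [Pi.zero_apply]
        positivity)
      · apply Continuous.integrable_of_hasCompactSupport
        · exact ((psr_shift_smooth r y).continuous.pow 2).mul
            ((nice_continuous _ (nice_piece _ _ _ _ ha.nice)).norm.pow 2)
        · apply HasCompactSupport.mul_right
          exact (psr_shift_compact hr y).comp_left (g := fun x : ℝ => x ^ 2) (by norm_num)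
      · refine Eventually.of_forall fun x => ?_
        have h3 : w m x ^ 2 ≤ psr r (x - y) ^ 2 := by
          rw [hw]
          simp only
          rw [mul_pow]
          exact mul_le_of_le_one_right (sq_nonneg _) (pow_le_one₀ (hl0 m x) (hl1 m x))
        exact mul_le_mul_of_nonneg_right h3 (sq_nonneg _)
    have h4 : 0 ≤ 162 * 121 * (4 * π * C₂ ^ 2) := by positivity
    linarith
  · intro ξ₀
    classical
    set A := B.filter (fun m => ‖ξ₀ / ((R / K : ℝ) : ℂ) - gi m‖ < 5) with hA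
    have h1 := hmain (closedBall ξ₀ (R / K)) measurableSet_closedBall A (by
      intro ξ hξ m hm hm2
      apply ML_tt_zero
      by_contra hc
      rw [not_le] at hc
      apply hm2
      rw [hA, Finset.mem_filter]
      refine ⟨hm, ?_⟩
      have h5 : ‖ξ₀ / ((R / K : ℝ) : ℂ) - ξ / ((R / K : ℝ) : ℂ)‖ ≤ 1 := by
        rw [← sub_div, norm_div, Complex.norm_real, Real.norm_of_nonneg hs.le, div_le_one hs,
          norm_sub_rev]
        rw [mem_closedBall, dist_eq_norm] at hξ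
        exact hξ
      have h6 : ξ₀ / ((R / K : ℝ) : ℂ) - gi m =
          (ξ₀ / ((R / K : ℝ) : ℂ) - ξ / ((R / K : ℝ) : ℂ)) + (ξ / ((R / K : ℝ) : ℂ) - gi m) := by
        ring
      rw [h6]
      refine (norm_add_le _ _).trans_lt ?_
      linarith)
    have h2 : A.card ≤ 121 := by
      have := ML_card_near (ξ₀ / ((R / K : ℝ) : ℂ)) A 5 (by
        intro m hm
        rw [hA, Finset.mem_filter] at hm
        exact_mod_cast hm.2)
      norm_num at this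
      exact this
    have h3 : ∑ m ∈ A, ∫ x, w m x ^ 2 * ‖𝓕⁻ (b m) x‖ ^ 2 ≤ 121 * (4 * π * C₂ ^ 2 * th) := by
      calc ∑ m ∈ A, ∫ x, w m x ^ 2 * ‖𝓕⁻ (b m) x‖ ^ 2 ≤ ∑ m ∈ A, (4 * π * C₂ ^ 2 * th) :=
            Finset.sum_le_sum fun m _ => hlight m
        _ = A.card * (4 * π * C₂ ^ 2 * th) := by rw [Finset.sum_const, nsmul_eq_mul]
        _ ≤ 121 * (4 * π * C₂ ^ 2 * th) := by
            have : (A.card : ℝ) ≤ 121 := by exact_mod_cast h2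
            gcongr
    calc ∫ ξ in closedBall ξ₀ (R / K), ‖𝓕 (fun x => ∑ m ∈ B, (w m x : ℂ) * 𝓕⁻ (b m) x) ξ‖ ^ 2
        ≤ _ := h1
      _ ≤ 162 * (121 * (4 * π * C₂ ^ 2 * th)) + th :=
          add_le_add (mul_le_mul_of_nonneg_left h3 (by norm_num)) herr
      _ ≤ (487 + 162 * 121 * (4 * π * C₂ ^ 2)) * th := by nlinarith

end Pool.Agent.H24.Tri
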