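import Pool.Agent.H38.Tri.SLA
import Pool.Agent.H93.Tri.Lao

/-!
# Spectral bounds for the light part: preparations
-/

set_option autoImplicit false

open MeasureTheory Set Complex Metric Filter Topology
open scoped Real ENNReal NNReal FourierTransform ComplexConjugate

namespace Pool.Agent.H24.Tri

/-! ### symbols -/

theorem ML_nice_affine (t : ℂ → ℂ) (ht : Nice t) (c : ℂ) (hc : c ≠ 0) (n : ℂ) :
    Nice (fun ξ => t (ξ / c - n)) where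
  smooth := by
    refine ht.smooth.comp (ContDiff.sub ?_ contDiff_const)
    exact contDiff_id.div_const c
  compact := by
    have h := ht.compact.comp_homeomorph
      ((Homeomorph.mulRight₀ c⁻¹ (inv_ne_zero hc)).trans (Homeomorph.subRight n))
    have h2 : (fun ξ => t (ξ / c - n)) =
        t ∘ ((Homeomorph.mulRight₀ c⁻¹ (inv_ne_zero hc)).trans (Homeomorph.subRight n)) := by
      funext ξ
      simp [div_eq_mul_inv]
    rw [h2]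
    exact h

theorem ML_kernel_L1 (t : ℂ → ℂ) (ht : Nice t) (c : ℂ) (hc : c ≠ 0) (n : ℂ) :
    ∫ y, ‖𝓕⁻ (fun ξ => t (ξ / c - n)) y‖ = ∫ y, ‖𝓕⁻ t y‖ := by
  have h1 : ∀ y, ‖𝓕⁻ (fun ξ => t (ξ / c - n)) y‖ = ‖c‖ ^ 2 * ‖𝓕⁻ t (conj c * y)‖ := by
    intro y
    rw [kernel_scaled t ht c hc n y, norm_mul, norm_mul, Complex.norm_exp_ofReal_mul_I, one_mul,
      Complex.norm_real, Real.norm_of_nonneg (by positivity)]
  have h2 := tb_integral_mul (conj c) (by simpa using hc) (fun y => ((‖𝓕⁻ t y‖ : ℝ) : ℂ))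
  have e1 : ∫ y, ((‖𝓕⁻ t y‖ : ℝ) : ℂ) = ((∫ y, ‖𝓕⁻ t y‖ : ℝ) : ℂ) := integral_ofReal
  have e2 : ∫ y, ((‖𝓕⁻ t (conj c * y)‖ : ℝ) : ℂ) = ((∫ y, ‖𝓕⁻ t (conj c * y)‖ : ℝ) : ℂ) :=
    integral_ofReal
  rw [e1, e2, Complex.norm_conj, ← Complex.ofReal_mul] at h2
  have h3 := Complex.ofReal_injective h2
  rw [h3, ← integral_const_mul]
  exact integral_congr_ae (Eventually.of_forall h1)

theorem ML_conv_bound (M a : ℂ → ℂ) (hM : Nice M) (ha : Nice a) (h1 : ∀ z, ‖𝓕⁻ a z‖ ≤ 1) (z : ℂ) :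
    ‖𝓕⁻ (fun ξ => M ξ * a ξ) z‖ ≤ ∫ y, ‖𝓕⁻ M y‖ := by
  rw [mult_conv M a hM ha z]
  refine norm_integral_le_of_norm_le (nice_integrable M hM).2.norm (Eventually.of_forall ?_)
  intro y
  rw [norm_mul]
  exact mul_le_of_le_one_right (norm_nonneg _) (h1 _)

/-- complex version of `theta` -/
noncomputable def ML_thetaC (x : ℂ) : ℂ := (theta x : ℂ)

theorem ML_nice_thetaC : Nice ML_thetaC where
  smooth := Complex.ofRealCLM.contDiff.comp theta_smooth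
  compact := theta_compact.comp_left (g := fun x : ℝ => (x : ℂ)) (by simp)

theorem ML_piece_eq (s : ℝ) (m : ℤ × ℤ) (a : ℂ → ℂ) :
    piece 1 s m a = fun ξ => ML_thetaC (ξ / ((1 : ℂ) * (s : ℂ)) - gi m) * a ξ := rfl

/-- uniform bound for the pieces -/
theorem ML_pm_bound : ∃ B : ℝ, 0 < B ∧ ∀ (K R : ℝ), 0 < K → 0 < R → ∀ a : ℂ → ℂ, Nice a →
    (∀ z, ‖𝓕⁻ a z‖ ≤ 1) → ∀ (m : ℤ × ℤ) (x : ℂ), ‖pm K R a m x‖ ≤ B := by
  refine ⟨(∫ y, ‖𝓕⁻ ML_thetaC y‖) + 1, ?_, ?_⟩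
  · have : 0 ≤ ∫ y, ‖𝓕⁻ ML_thetaC y‖ := integral_nonneg fun y => norm_nonneg _
    linarith
  · intro K R hK hR a ha h1 m x
    have hc : (1 : ℂ) * ((R / K : ℝ) : ℂ) ≠ 0 := by
      rw [one_mul]
      exact_mod_cast (div_pos hR hK).ne'
    unfold pm
    rw [ML_piece_eq]
    have h2 := ML_conv_bound (fun ξ => ML_thetaC (ξ / ((1 : ℂ) * ((R / K : ℝ) : ℂ)) - gi m)) a
      (ML_nice_affine _ ML_nice_thetaC _ hc _) ha h1 x
    rw [ML_kernel_L1 _ ML_nice_thetaC _ hc] at h2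
    linarith

/-- the wider cutoff -/
noncomputable def ML_tt (x : ℂ) : ℂ := chiC (x / 2)

theorem ML_nice_tt : Nice ML_tt := by
  have h := ML_nice_affine chiC nice_chi 2 two_ne_zero 0
  have h2 : ML_tt = fun ξ => chiC (ξ / 2 - 0) := by
    funext ξ
    rw [sub_zero]
    rfl
  rw [h2]
  exact h

theorem ML_tt_one {x : ℂ} (h : ‖x‖ ≤ 2) : ML_tt x = 1 := by
  unfold ML_tt chiC
  rw [chi_one]
  · simp
  · rw [norm_div]
    simp only [Complex.norm_ofNat]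
    linarith

theorem ML_tt_zero {x : ℂ} (h : 4 ≤ ‖x‖) : ML_tt x = 0 := by
  unfold ML_tt chiC
  rw [chi_zero]
  · simp
  · rw [norm_div]
    simp only [Complex.norm_ofNat]
    linarith

theorem ML_tt_norm (x : ℂ) : ‖ML_tt x‖ ≤ 1 := by
  unfold ML_tt chiC
  rw [Complex.norm_real, Real.norm_of_nonneg (chi_nonneg _)]
  exact chi_le_one _

theorem ML_tt_piece (s : ℝ) (m : ℤ × ℤ) (a : ℂ → ℂ) (ξ : ℂ) :
    ML_tt (ξ / (s : ℂ) - gi m) * piece 1 s m a ξ = piece 1 s m a ξ := by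
  rw [ML_piece_eq]
  dsimp only
  rw [one_mul]
  unfold ML_thetaC
  rcases le_or_gt 2 ‖ξ / (s : ℂ) - gi m‖ with h | h
  · rw [theta_zero _ h]
    simp
  · rw [ML_tt_one h.le, one_mul]

/-! ### the error made by a frequency projection -/

/-- smooth compactly supported weight times a piece -/
theorem ML_nice_mul {w : ℂ → ℝ} (hw : ContDiff ℝ ((⊤ : ℕ∞) : WithTop ℕ∞) w)
    (hwc : HasCompactSupport w) (b : ℂ → ℂ) (hb : Nice b) :
    Nice (fun x => (w x : ℂ) * 𝓕⁻ b x) where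
  smooth := by
    refine ContDiff.mul (Complex.ofRealCLM.contDiff.comp hw) ?_
    rw [← tbS_inv b hb]
    exact SchwartzMap.smooth _ _
  compact := (hwc.comp_left (g := fun x : ℝ => (x : ℂ)) (by simp)).mul_right

theorem ML_err (hcomm : ∀ t : ℂ → ℂ, Nice t → ∃ C : ℝ, 0 < C ∧ ∀ s : ℝ, 0 < s →
    ∀ (n : ℂ) (p : ℂ → ℂ), Measurable p → ∀ B : ℝ, (∀ x, ‖p x‖ ≤ B) →
    ∀ w : ℂ → ℝ, ContDiff ℝ 1 w → HasCompactSupport w →
      (∫ x, ‖(∫ y, 𝓕⁻ (fun ξ => t (ξ / s - n)) y * ((w (x - y) : ℂ) * p (x - y))) -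
        (w x : ℂ) * ∫ y, 𝓕⁻ (fun ξ => t (ξ / s - n)) y * p (x - y)‖) ≤
        C * B / s * ∫ x, ‖fderiv ℝ w x‖ ∧
      (∫ x, ‖(∫ y, 𝓕⁻ (fun ξ => t (ξ / s - n)) y * ((w (x - y) : ℂ) * p (x - y))) -
        (w x : ℂ) * ∫ y, 𝓕⁻ (fun ξ => t (ξ / s - n)) y * p (x - y)‖ ^ 2) ≤
        (C * B / s) ^ 2 * ∫ x, ‖fderiv ℝ w x‖ ^ 2) :
    ∃ C : ℝ, 0 < C ∧ ∀ s : ℝ, 0 < s → ∀ (m : ℤ × ℤ) (b : ℂ → ℂ), Nice b →
      (∀ ξ, ML_tt (ξ / (s : ℂ) - gi m) * b ξ = b ξ) → ∀ B : ℝ, (∀ x, ‖𝓕⁻ b x‖ ≤ B) →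
      ∀ w : ℂ → ℝ, ContDiff ℝ ((⊤ : ℕ∞) : WithTop ℕ∞) w → HasCompactSupport w →
      ∃ D : SchwartzMap ℂ ℂ,
        (∀ ξ, 𝓕 (fun x => (w x : ℂ) * 𝓕⁻ b x) ξ =
          ML_tt (ξ / (s : ℂ) - gi m) * 𝓕 (fun x => (w x : ℂ) * 𝓕⁻ b x) ξ - D ξ) ∧
        (∫ ξ, ‖D ξ‖ ^ 2) ≤ (C * B / s) ^ 2 * ∫ x, ‖fderiv ℝ w x‖ ^ 2 := by
  obtain ⟨C, hC, h⟩ := hcomm ML_tt ML_nice_tt
  refine ⟨C, hC, ?_⟩
  intro s hs m b hb htb B hB w hw hwc
  have hs0 : (s : ℂ) ≠ 0 := by exact_mod_cast hs.ne'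
  have hT : Nice (fun ξ => ML_tt (ξ / (s : ℂ) - gi m)) :=
    ML_nice_affine _ ML_nice_tt _ hs0 _
  have hF := ML_nice_mul hw hwc b hb
  set T : ℂ → ℂ := fun ξ => ML_tt (ξ / (s : ℂ) - gi m) with hTd
  set F : ℂ → ℂ := fun x => (w x : ℂ) * 𝓕⁻ b x with hFd
  -- the Schwartz function `K * F - F`
  set E : SchwartzMap ℂ ℂ := SchwartzMap.convolution (ContinuousLinearMap.mul ℂ ℂ)
    (𝓕⁻ (tbS T hT)) (tbS F hF) - tbS F hF with hE
  have h1 := (h s hs (gi m) (𝓕⁻ b) (nice_continuous b hb).measurable B hB w (hw.of_le (by simp))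
    hwc).2
  have hE1 : ∀ x, E x = (∫ y, 𝓕⁻ T y * ((w (x - y) : ℂ) * 𝓕⁻ b (x - y))) -
      (w x : ℂ) * ∫ y, 𝓕⁻ T y * 𝓕⁻ b (x - y) := by
    intro x
    have e1 : (∫ y, 𝓕⁻ T y * 𝓕⁻ b (x - y)) = 𝓕⁻ b x := by
      have e0 : (fun ξ => T ξ * b ξ) = b := funext htb
      rw [← mult_conv T b hT hb x, e0]
    rw [e1, hE, sub_apply, SchwartzMap.convolution_apply,
      MeasureTheory.convolution_def]
    simp only [ContinuousLinearMap.mul_apply', tbS_inv, tbS_coe]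
    rfl
  have hE2 : (∫ x, ‖E x‖ ^ 2) ≤ (C * B / s) ^ 2 * ∫ x, ‖fderiv ℝ w x‖ ^ 2 := by
    refine le_trans (le_of_eq ?_) h1
    refine integral_congr_ae (Eventually.of_forall fun x => ?_)
    show ‖E x‖ ^ 2 = _
    rw [hE1 x]
  refine ⟨𝓕 E, ?_, ?_⟩
  · intro ξ
    have e2 : 𝓕 E = SchwartzMap.pairing (ContinuousLinearMap.mul ℂ ℂ) (tbS T hT) (𝓕 (tbS F hF)) -
        𝓕 (tbS F hF) := by
      rw [hE, sub_eq_add_neg, FourierTransform.fourier_add, FourierTransform.fourier_neg,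
        SchwartzMap.fourier_convolution, FourierTransform.fourier_fourierInv_eq, ← sub_eq_add_neg]
    rw [e2, sub_apply, SchwartzMap.pairing_apply_apply, SchwartzMap.fourier_coe]
    simp only [ContinuousLinearMap.mul_apply', tbS_coe]
    ring
  · rw [SchwartzMap.integral_norm_sq_fourier]
    exact hE2

end Pool.Agent.H24.Tri
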