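import Pool.Agent.H72.Tri.ML1

/-!
# Spectral bounds for the light part: counting, gradients of the weights, local mass
-/

set_option autoImplicit false

open MeasureTheory Set Complex Metric Filter Topology
open scoped Real ENNReal NNReal FourierTransform ComplexConjugate

namespace Pool.Agent.H24.Tri

/-! ### counting -/

theorem ML_card_near (z : ℂ) (M : Finset (ℤ × ℤ)) (d : ℕ) (h : ∀ m ∈ M, ‖z - gi m‖ < d) :
    M.card ≤ (2 * d + 1) ^ 2 := by
  have hint : ∀ (x : ℝ) (k : ℤ), |x - k| < d → k ∈ Finset.Icc (⌊x⌋ - d) (⌊x⌋ + d) := by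
    intro x k hk
    rw [abs_lt] at hk
    rw [Finset.mem_Icc]
    constructor
    · have h1 := Int.floor_le x
      have h2 : ((⌊x⌋ - d : ℤ) : ℝ) < k := by
        push_cast
        linarith
      exact (Int.cast_lt.mp h2).le
    · have h1 := Int.lt_floor_add_one x
      have h2 : (k : ℝ) < ((⌊x⌋ + d + 1 : ℤ) : ℝ) := by
        push_cast
        linarith
      have h3 := Int.cast_lt.mp h2
      omega
  have hsub : M ⊆ (Finset.Icc (⌊z.re⌋ - d) (⌊z.re⌋ + d) : Finset ℤ) ×ˢ
      (Finset.Icc (⌊z.im⌋ - d) (⌊z.im⌋ + d) : Finset ℤ) := by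
    intro m hm
    rw [Finset.mem_product]
    have h0 := h m hm
    constructor
    · apply hint
      have h1 := Complex.abs_re_le_norm (z - gi m)
      rw [Complex.sub_re, gi_re] at h1
      linarith
    · apply hint
      have h1 := Complex.abs_im_le_norm (z - gi m)
      rw [Complex.sub_im, gi_im] at h1
      linarith
  refine (Finset.card_le_card hsub).trans ?_
  rw [Finset.card_product, Int.card_Icc, Int.card_Icc, pow_two]
  apply le_of_eq
  congr 1 <;> omega

/-- pointwise bound -/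
theorem ML_pt {ι : Type*} [DecidableEq ι] (B A : Finset ι) (T f D : ι → ℂ) (hT : ∀ m, ‖T m‖ ≤ 1)
    (h : ∀ m ∈ B, f m = T m * f m - D m) (hA0 : ∀ m ∈ B, m ∉ A → T m = 0) (N : ℝ)
    (hN : ∀ M : Finset ι, M ⊆ B → (∀ m ∈ M, T m ≠ 0) → (M.card : ℝ) ≤ N) :
    ‖∑ m ∈ B, f m‖ ^ 2 ≤ 2 * N * ∑ m ∈ A, ‖f m‖ ^ 2 + 2 * B.card * ∑ m ∈ B, ‖D m‖ ^ 2 := by
  classical
  have e1 : ∑ m ∈ B, f m = ∑ m ∈ B, T m * f m - ∑ m ∈ B, D m := by
    rw [← Finset.sum_sub_distrib]
    exact Finset.sum_congr rfl h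
  set M := B.filter (fun m => T m ≠ 0) with hM
  have hMB : M ⊆ B := Finset.filter_subset _ _
  have hMA : M ⊆ A := by
    intro m hm
    rw [hM, Finset.mem_filter] at hm
    by_contra hc
    exact hm.2 (hA0 m hm.1 hc)
  have hMc : (M.card : ℝ) ≤ N := hN M hMB fun m hm => (Finset.mem_filter.mp hm).2
  have e2 : ∑ m ∈ B, T m * f m = ∑ m ∈ M, T m * f m := by
    symm
    apply Finset.sum_subset hMB
    intro m hm hm2
    have : T m = 0 := by
      by_contra hc
      exact hm2 (Finset.mem_filter.mpr ⟨hm, hc⟩)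
    rw [this, zero_mul]
  have h1 : ‖∑ m ∈ M, T m * f m‖ ^ 2 ≤ N * ∑ m ∈ A, ‖f m‖ ^ 2 := by
    have a1 : ‖∑ m ∈ M, T m * f m‖ ≤ ∑ m ∈ M, ‖f m‖ := by
      refine (norm_sum_le _ _).trans (Finset.sum_le_sum fun m _ => ?_)
      rw [norm_mul]
      exact mul_le_of_le_one_left (norm_nonneg _) (hT m)
    calc ‖∑ m ∈ M, T m * f m‖ ^ 2 ≤ (∑ m ∈ M, ‖f m‖) ^ 2 := by gcongr
      _ ≤ M.card * ∑ m ∈ M, ‖f m‖ ^ 2 := sq_sum_le_card_mul_sum_sq
      _ ≤ N * ∑ m ∈ A, ‖f m‖ ^ 2 := by
          gcongr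
          exact (Nat.cast_nonneg _).trans hMc
  have h2 : ‖∑ m ∈ B, D m‖ ^ 2 ≤ B.card * ∑ m ∈ B, ‖D m‖ ^ 2 := by
    calc ‖∑ m ∈ B, D m‖ ^ 2 ≤ (∑ m ∈ B, ‖D m‖) ^ 2 := by
          gcongr
          exact norm_sum_le _ _
      _ ≤ B.card * ∑ m ∈ B, ‖D m‖ ^ 2 := sq_sum_le_card_mul_sum_sq
  rw [e1, e2]
  have h3 := norm_sub_le (∑ m ∈ M, T m * f m) (∑ m ∈ B, D m)
  have h4 := norm_nonneg (∑ m ∈ M, T m * f m - ∑ m ∈ B, D m)
  nlinarith [sq_nonneg (‖∑ m ∈ M, T m * f m‖ - ‖∑ m ∈ B, D m‖),
    norm_nonneg (∑ m ∈ M, T m * f m), norm_nonneg (∑ m ∈ B, D m)]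

/-! ### gradients -/

theorem ML_vol (y : ℂ) (r : ℝ) (hr : 0 ≤ r) : (volume (closedBall y r)).toReal = π * r ^ 2 := by
  rw [Complex.volume_closedBall, ENNReal.toReal_mul, ENNReal.toReal_pow, ENNReal.toReal_ofReal hr]
  simp [mul_comm]

/-- Lipschitz bound for the square of `psr` -/
theorem ML_sq_lip (C₁ C₂ : ℝ) (hC₁ : ∀ r : ℝ, 0 < r → ∀ x y : ℂ,
    |psr r x - psr r y| ≤ C₁ / r ^ 2 * ‖x - y‖) (hC₂ : ∀ r : ℝ, 0 < r → ∀ x : ℂ, psr r x ≤ C₂ / r)
    (r : ℝ) (hr : 0 < r) (x y : ℂ) :
    |psr r x ^ 2 - psr r y ^ 2| ≤ C₁ / r ^ 2 * (2 * (C₂ / r)) * ‖x - y‖ := by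
  have h1 := hC₁ r hr x y
  have h2 := hC₂ r hr x
  have h3 := hC₂ r hr y
  have h4 := psr_nonneg hr x
  have h5 := psr_nonneg hr y
  have e : psr r x ^ 2 - psr r y ^ 2 = (psr r x - psr r y) * (psr r x + psr r y) := by ring
  rw [e, abs_mul, abs_of_nonneg (by linarith : 0 ≤ psr r x + psr r y)]
  calc |psr r x - psr r y| * (psr r x + psr r y) ≤ (C₁ / r ^ 2 * ‖x - y‖) * (2 * (C₂ / r)) := by
        apply mul_le_mul h1 (by linarith) (by linarith)
        exact (abs_nonneg _).trans h1
    _ = _ := by ring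

theorem ML_wt_lip (C₁ C₂ : ℝ) (hC₁0 : 0 ≤ C₁) (hC₂0 : 0 ≤ C₂) (hC₁ : ∀ r : ℝ, 0 < r → ∀ x y : ℂ,
    |psr r x - psr r y| ≤ C₁ / r ^ 2 * ‖x - y‖) (hC₂ : ∀ r : ℝ, 0 < r → ∀ x : ℂ, psr r x ≤ C₂ / r)
    (r : ℝ) (hr : 0 < r) (f : ℂ → ℝ) (hf : Measurable f) (hf1 : ∀ x, ‖f x‖ ≤ 1) (x y : ℂ) :
    |(∫ t, psr r (x - t) ^ 2 * f t) - ∫ t, psr r (y - t) ^ 2 * f t| ≤
      4 * π * C₁ * C₂ / r * ‖x - y‖ := by
  rw [← integral_sub (wt_integrable hr f hf hf1 x) (wt_integrable hr f hf hf1 y),
    ← Real.norm_eq_abs]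
  set L : ℝ := C₁ / r ^ 2 * (2 * (C₂ / r)) * ‖x - y‖ with hL
  have hL0 : 0 ≤ L := by positivity
  have hbi : ∀ z : ℂ, Integrable ((closedBall z r).indicator fun _ => L) := by
    intro z
    rw [integrable_indicator_iff measurableSet_closedBall]
    exact integrableOn_const measure_closedBall_lt_top.ne
  have hbv : ∀ z : ℂ, ∫ t, ((closedBall z r).indicator fun _ => L) t = L * (π * r ^ 2) := by
    intro z
    rw [integral_indicator measurableSet_closedBall, setIntegral_const, Measure.real,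
      ML_vol z r hr.le, smul_eq_mul, mul_comm]
  refine (norm_integral_le_of_norm_le ((hbi x).add (hbi y))
    (Eventually.of_forall fun t => ?_)).trans ?_
  · rw [← sub_mul, norm_mul]
    have h1 := ML_sq_lip C₁ C₂ hC₁ hC₂ r hr (x - t) (y - t)
    rw [sub_sub_sub_cancel_right, ← hL] at h1
    have h2 : ‖psr r (x - t) ^ 2 - psr r (y - t) ^ 2‖ * ‖f t‖ ≤
        ‖psr r (x - t) ^ 2 - psr r (y - t) ^ 2‖ :=
      mul_le_of_le_one_right (norm_nonneg _) (hf1 t)
    refine h2.trans ?_
    rw [Real.norm_eq_abs, Pi.add_apply]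
    by_cases hx : t ∈ closedBall x r
    · rw [indicator_of_mem hx]
      have : 0 ≤ (closedBall y r).indicator (fun _ => L) t := indicator_nonneg (fun _ _ => hL0) _
      linarith
    · by_cases hy : t ∈ closedBall y r
      · rw [indicator_of_mem hy]
        have : 0 ≤ (closedBall x r).indicator (fun _ => L) t := indicator_nonneg (fun _ _ => hL0) _
        linarith
      · rw [indicator_of_notMem hx, indicator_of_notMem hy]
        rw [mem_closedBall, not_le, dist_comm, dist_eq_norm] at hx hy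
        rw [psr_zero hr _ hx.le, psr_zero hr _ hy.le]
        simp
  · rw [integral_add' (hbi x) (hbi y), hbv, hbv]
    apply le_of_eq
    rw [hL]
    field_simp
    ring

/-- gradient of a localised weight -/
theorem ML_grad (C₁ C₂ : ℝ) (hC₁0 : 0 ≤ C₁) (hC₂0 : 0 ≤ C₂) (hC₁ : ∀ r : ℝ, 0 < r → ∀ x y : ℂ,
    |psr r x - psr r y| ≤ C₁ / r ^ 2 * ‖x - y‖) (hC₂ : ∀ r : ℝ, 0 < r → ∀ x : ℂ, psr r x ≤ C₂ / r)
    (r : ℝ) (hr : 0 < r) (l : ℂ → ℝ) (h0 : ∀ x, 0 ≤ l x) (h1 : ∀ x, l x ≤ 1)
    (hl : ∀ x y, |l x - l y| ≤ 4 * π * C₁ * C₂ / r * ‖x - y‖) (y : ℂ) :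
    ∫ x, ‖fderiv ℝ (fun x => psr r (x - y) * l x) x‖ ^ 2 ≤
      (C₁ / r ^ 2 * (1 + 4 * π * C₂ ^ 2)) ^ 2 * (π * r ^ 2) := by
  set L : ℝ := C₁ / r ^ 2 * (1 + 4 * π * C₂ ^ 2) with hL
  have hL0 : 0 ≤ L := by positivity
  set w : ℂ → ℝ := fun x => psr r (x - y) * l x with hw
  have hlip : LipschitzWith (Real.toNNReal L) w := by
    apply LipschitzWith.of_dist_le_mul
    intro x x'
    rw [Real.coe_toNNReal _ hL0, Real.dist_eq, dist_eq_norm]
    have e : w x - w x' = (psr r (x - y) - psr r (x' - y)) * l x + psr r (x' - y) * (l x - l x') := by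
      rw [hw]
      ring
    have a1 := hC₁ r hr (x - y) (x' - y)
    rw [sub_sub_sub_cancel_right] at a1
    have a2 := hC₂ r hr (x' - y)
    have a3 := psr_nonneg hr (x' - y)
    have a4 := hl x x'
    calc |w x - w x'| ≤ |psr r (x - y) - psr r (x' - y)| * l x +
          psr r (x' - y) * |l x - l x'| := by
          rw [e]
          refine (abs_add_le _ _).trans ?_
          rw [abs_mul, abs_mul, abs_of_nonneg (h0 x), abs_of_nonneg a3]
      _ ≤ (C₁ / r ^ 2 * ‖x - x'‖) * 1 + (C₂ / r) * (4 * π * C₁ * C₂ / r * ‖x - x'‖) := by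
          apply add_le_add
          · exact mul_le_mul a1 (h1 x) (h0 x) ((abs_nonneg _).trans a1)
          · exact mul_le_mul a2 a4 (abs_nonneg _) (a3.trans a2)
      _ = L * ‖x - x'‖ := by
          rw [hL]
          field_simp
  have hb : ∀ x, ‖fderiv ℝ w x‖ ^ 2 ≤ (closedBall y r).indicator (fun _ => L ^ 2) x := by
    intro x
    by_cases hx : x ∈ closedBall y r
    · rw [indicator_of_mem hx]
      have h2 := norm_fderiv_le_of_lipschitz ℝ hlip (x₀ := x)
      rw [Real.coe_toNNReal _ hL0] at h2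
      exact pow_le_pow_left₀ (norm_nonneg _) h2 2
    · rw [indicator_of_notMem hx]
      have h3 : w =ᶠ[𝓝 x] fun _ => (0 : ℝ) := by
        filter_upwards [isClosed_closedBall.isOpen_compl.mem_nhds hx] with z hz
        rw [mem_compl_iff, mem_closedBall, not_le, dist_eq_norm] at hz
        rw [hw]
        simp only
        rw [psr_zero hr _ hz.le, zero_mul]
      rw [h3.fderiv_eq]
      simp
  have hbi : Integrable ((closedBall y r).indicator fun _ => L ^ 2) := by
    rw [integrable_indicator_iff measurableSet_closedBall]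
    exact integrableOn_const measure_closedBall_lt_top.ne
  calc ∫ x, ‖fderiv ℝ w x‖ ^ 2 ≤ ∫ x, (closedBall y r).indicator (fun _ => L ^ 2) x :=
        integral_mono_of_nonneg (Eventually.of_forall fun x => sq_nonneg _) hbi
          (Eventually.of_forall hb)
    _ = L ^ 2 * (π * r ^ 2) := by
        rw [integral_indicator measurableSet_closedBall, setIntegral_const, Measure.real,
          ML_vol y r hr.le, smul_eq_mul, mul_comm]

/-! ### local mass of a light piece -/

open Classical in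
theorem ML_light (C₂ : ℝ) (hC₂0 : 0 ≤ C₂) (hC₂ : ∀ r : ℝ, 0 < r → ∀ x : ℂ, psr r x ≤ C₂ / r)
    (r th : ℝ) (hr : 0 < r) (hth : 0 < th) (p : ℂ → ℂ) (hp : Continuous p)
    (hM : Continuous fun t => mass r p t) (y : ℂ) (l : ℂ → ℝ) (hlc : Continuous l)
    (hl : ∀ x, l x = ∫ t, psr r (x - t) ^ 2 * (if th ≤ mass r p t then 0 else 1))
    (h0 : ∀ x, 0 ≤ l x) (h1 : ∀ x, l x ≤ 1) :
    ∫ x, psr r (x - y) ^ 2 * l x ^ 2 * ‖p x‖ ^ 2 ≤ 4 * π * C₂ ^ 2 * th := by
  set e : ℂ → ℝ := fun t => if th ≤ mass r p t then 0 else 1 with he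
  have hE : MeasurableSet {t | th ≤ mass r p t} :=
    (isClosed_le continuous_const hM).measurableSet
  have hem : Measurable e := Measurable.ite hE measurable_const measurable_const
  have he0 : ∀ t, 0 ≤ e t := by
    intro t
    rw [he]
    simp only
    split_ifs <;> simp
  have he1 : ∀ t, ‖e t‖ ≤ 1 := by
    intro t
    rw [he]
    simp only
    split_ifs <;> simp
  have hpsc : Continuous (psr r) := (psr_smooth r).continuous
  have hc : Continuous fun x => psr r (x - y) ^ 2 * l x ^ 2 * ‖p x‖ ^ 2 := by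
    exact (((hpsc.comp (continuous_id.sub continuous_const)).pow 2).mul (hlc.pow 2)).mul
      (hp.norm.pow 2)
  rw [integral_eq_lintegral_of_nonneg_ae (Eventually.of_forall fun x => by positivity)
    hc.aestronglyMeasurable]
  apply ENNReal.toReal_le_of_le_ofReal (by positivity)
  -- the function of two variables
  set F : ℂ → ℂ → ℝ≥0∞ := fun x t => ENNReal.ofReal (psr r (x - t) ^ 2 * e t * ‖p x‖ ^ 2) with hF
  have hFm : Measurable (Function.uncurry F) := by
    apply Measurable.ennreal_ofReal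
    apply Measurable.mul
    · apply Measurable.mul
      · exact (hpsc.comp (continuous_fst.sub continuous_snd)).measurable.pow_const 2
      · exact hem.comp measurable_snd
    · exact (hp.comp continuous_fst).norm.measurable.pow_const 2
  have s1 : ∀ x, ENNReal.ofReal (psr r (x - y) ^ 2 * l x ^ 2 * ‖p x‖ ^ 2) ≤
      (closedBall y r).indicator (fun x => ENNReal.ofReal ((C₂ / r) ^ 2) * ∫⁻ t, F x t) x := by
    intro x
    by_cases hx : x ∈ closedBall y r
    · rw [indicator_of_mem hx]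
      have hi : Integrable fun t => psr r (x - t) ^ 2 * e t * ‖p x‖ ^ 2 :=
        (wt_integrable hr e hem he1 x).mul_const _
      have e1 : ∫⁻ t, F x t = ENNReal.ofReal (l x * ‖p x‖ ^ 2) := by
        rw [hF]
        simp only
        rw [← ofReal_integral_eq_lintegral_ofReal hi
          (Eventually.of_forall fun t => mul_nonneg (mul_nonneg (sq_nonneg _) (he0 t))
            (sq_nonneg _)), integral_mul_const, hl x]
      rw [e1, ← ENNReal.ofReal_mul (by positivity)]
      apply ENNReal.ofReal_le_ofReal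
      have a1 := hC₂ r hr (x - y)
      have a2 := psr_nonneg hr (x - y)
      have a3 : l x ^ 2 ≤ l x := by
        have := h0 x
        have := h1 x
        nlinarith
      calc psr r (x - y) ^ 2 * l x ^ 2 * ‖p x‖ ^ 2 ≤ (C₂ / r) ^ 2 * l x * ‖p x‖ ^ 2 := by
            have := h0 x
            gcongr
        _ = _ := by ring
    · rw [indicator_of_notMem hx]
      rw [mem_closedBall, not_le, dist_eq_norm] at hx
      rw [psr_zero hr _ hx.le]
      simp
  have s2 : ∀ t, ∫⁻ x in closedBall y r, F x t ≤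
      (closedBall y (2 * r)).indicator (fun _ => ENNReal.ofReal th) t := by
    intro t
    by_cases ht : t ∈ closedBall y (2 * r)
    · rw [indicator_of_mem ht]
      by_cases hm : th ≤ mass r p t
      · have : ∀ x, F x t = 0 := by
          intro x
          have : e t = 0 := by
            rw [he]
            simp only
            rw [if_pos hm]
          rw [hF]
          simp only
          rw [this]
          simp
        simp [this]
      · have hi : Integrable fun x => psr r (x - t) ^ 2 * ‖p x‖ ^ 2 := by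
          apply Continuous.integrable_of_hasCompactSupport
          · exact ((hpsc.comp (continuous_id.sub continuous_const)).pow 2).mul (hp.norm.pow 2)
          · apply HasCompactSupport.mul_right
            exact (psr_shift_compact hr t).comp_left (g := fun x : ℝ => x ^ 2) (by norm_num)
        have e1 : ∀ x, F x t = ENNReal.ofReal (psr r (x - t) ^ 2 * ‖p x‖ ^ 2) := by
          intro x
          have : e t = 1 := by
            rw [he]
            simp only
            rw [if_neg hm]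
          rw [hF]
          simp only
          rw [this, mul_one]
        calc ∫⁻ x in closedBall y r, F x t ≤ ∫⁻ x, F x t := setLIntegral_le_lintegral _ _
          _ = ENNReal.ofReal (mass r p t) := by
              simp only [e1]
              rw [← ofReal_integral_eq_lintegral_ofReal hi
                (Eventually.of_forall fun x => by positivity)]
              rfl
          _ ≤ ENNReal.ofReal th := ENNReal.ofReal_le_ofReal (not_le.mp hm).le
    · rw [indicator_of_notMem ht, nonpos_iff_eq_zero]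
      rw [setLIntegral_congr_fun (g := fun _ => 0) measurableSet_closedBall]
      · simp
      · intro x hx
        rw [mem_closedBall, dist_eq_norm] at hx
        rw [mem_closedBall, not_le, dist_eq_norm] at ht
        have h3 : r ≤ ‖x - t‖ := by
          have : ‖t - y‖ ≤ ‖x - y‖ + ‖x - t‖ := by
            have e3 : t - y = (x - y) - (x - t) := by ring
            rw [e3]
            exact norm_sub_le _ _
          linarith
        rw [hF]
        simp only
        rw [psr_zero hr _ h3]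
        simp
  calc ∫⁻ x, ENNReal.ofReal (psr r (x - y) ^ 2 * l x ^ 2 * ‖p x‖ ^ 2)
      ≤ ∫⁻ x, (closedBall y r).indicator
          (fun x => ENNReal.ofReal ((C₂ / r) ^ 2) * ∫⁻ t, F x t) x := lintegral_mono s1
    _ = ENNReal.ofReal ((C₂ / r) ^ 2) * ∫⁻ x in closedBall y r, ∫⁻ t, F x t := by
        rw [lintegral_indicator measurableSet_closedBall, lintegral_const_mul' _ _
          ENNReal.ofReal_ne_top]
    _ = ENNReal.ofReal ((C₂ / r) ^ 2) * ∫⁻ t, ∫⁻ x in closedBall y r, F x t := by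
        rw [lintegral_lintegral_swap hFm.aemeasurable]
    _ ≤ ENNReal.ofReal ((C₂ / r) ^ 2) *
          ∫⁻ t, (closedBall y (2 * r)).indicator (fun _ => ENNReal.ofReal th) t := by
        gcongr with t
        exact s2 t
    _ = ENNReal.ofReal ((C₂ / r) ^ 2) * (ENNReal.ofReal th * ENNReal.ofReal (π * (2 * r) ^ 2)) := by
        rw [lintegral_indicator measurableSet_closedBall, setLIntegral_const,
          ← ML_vol y (2 * r) (by positivity), ENNReal.ofReal_toReal measure_closedBall_lt_top.ne]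
    _ = ENNReal.ofReal (4 * π * C₂ ^ 2 * th) := by
        rw [← ENNReal.ofReal_mul hth.le, ← ENNReal.ofReal_mul (by positivity)]
        congr 1
        field_simp
        ring

end Pool.Agent.H24.Tri
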